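import Mathlib.Order.Bounds.Basic
import Mathlib.Order.OrderIsoNat
import Mathlib.Data.Finset.Card
import Mathlib.Tactic

/-! Project DV (MP_3976d4_co), after Helper73/DU: an abstract system of interpolation maps on a
poset with the ascending and descending chain conditions does not exist if there is no chain
`a < b < c < u < v` and no chain `a < b < u < v < w` of lower points `a, b, c` and upper points
`u, v, w` (with lowest point `≤ s`, top point `≥ s`). The data are self-dual. -/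

set_option autoImplicit false

universe u

namespace Pool.Agent.Helper83.DV

structure Sys (P : Type u) [PartialOrder P] where
  s : P
  D : Set P
  U : Set P
  be : P → P
  cc : P → P
  bb : P → P → P
  wf : WellFounded (fun a b : P => a < b)
  wg : WellFounded (fun a b : P => b < a)
  cov : ∀ y, y ∈ D ∨ y ∈ U
  dis : ∀ x ∈ D, x ∈ U → False
  bs : ∀ w ∈ U, be w ≤ s
  cs : ∀ x ∈ D, s ≤ cc x
  bm : ∀ v ∈ U, ∀ w ∈ U, v ≤ w → be v ≤ be w
  cm : ∀ x ∈ D, ∀ y ∈ D, x ≤ y → cc x ≤ cc y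
  b1 : ∀ x ∈ D, ∀ w ∈ U, x < w → be w ≤ bb x w
  b4 : ∀ x ∈ D, ∀ w ∈ U, x < w → bb x w ≤ cc x
  b5 : ∀ x ∈ D, ∀ y ∈ D, ∀ v ∈ U, ∀ w ∈ U, x < v → y < w → x ≤ y → v ≤ w → bb x v ≤ bb y w
  n1 : ∀ w ∈ U, ¬ w ≤ be w
  n2 : ∀ x ∈ D, ¬ cc x ≤ x
  n3 : ∀ x ∈ D, ∀ w ∈ U, x < w → ¬ bb x w ≤ x
  n4 : ∀ x ∈ D, ∀ w ∈ U, x < w → ¬ w ≤ bb x w
  nc1 : ∀ a ∈ D, ∀ b ∈ D, ∀ c ∈ D, ∀ u ∈ U, ∀ v ∈ U, a < b → b < c → c < u → u < v →
    a ≤ s → s ≤ v → False
  nc2 : ∀ a ∈ D, ∀ b ∈ D, ∀ u ∈ U, ∀ v ∈ U, ∀ w ∈ U, a < b → b < u → u < v → v < w →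
    a ≤ s → s ≤ w → False

variable {P : Type u} [PartialOrder P]

/-- the order dual -/
def Sys.dual (T : Sys P) : Sys Pᵒᵈ where
  s := T.s
  D := T.U
  U := T.D
  be := T.cc
  cc := T.be
  bb := fun x w => T.bb w x
  wf := T.wg
  wg := T.wf
  cov := fun y => (T.cov y).symm
  dis := fun x hx hx' => T.dis x hx' hx
  bs := T.cs
  cs := T.bs
  bm := fun v hv w hw h => T.cm w hw v hv h
  cm := fun v hv w hw h => T.bm w hw v hv h
  b1 := fun x hx w hw h => T.b4 w hw x hx h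
  b4 := fun x hx w hw h => T.b1 w hw x hx h
  b5 := fun x hx y hy v hv w hw h1 h2 h3 h4 => T.b5 w hw v hv y hy x hx h2 h1 h4 h3
  n1 := T.n2
  n2 := T.n1
  n3 := fun x hx w hw h => T.n4 w hw x hx h
  n4 := fun x hx w hw h => T.n3 w hw x hx h
  nc1 := fun a ha b hb c hc u hu v hv h1 h2 h3 h4 h5 h6 =>
    T.nc2 v hv u hu c hc b hb a ha h4 h3 h2 h1 h6 h5
  nc2 := fun a ha b hb u hu v hv w hw h1 h2 h3 h4 h5 h6 =>
    T.nc1 w hw v hv u hu b hb a ha h4 h3 h2 h1 h6 h5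

/-- the orbit of `v` under `a` stays in `U` until it reaches `d` in `D` -/
inductive Ex {Q : Type u} (U D : Set Q) (a : Q → Q) : Q → Q → Prop
  | one {v : Q} : v ∈ U → a v ∈ D → Ex U D a v (a v)
  | step {v d : Q} : v ∈ U → a v ∈ U → Ex U D a (a v) d → Ex U D a v d

theorem Ex.memU {Q : Type u} {U D : Set Q} {a : Q → Q} {v d : Q} (h : Ex U D a v d) : v ∈ U := by
  cases h with
  | one h1 _ => exact h1
  | step h1 _ _ => exact h1

theorem Ex.memD {Q : Type u} {U D : Set Q} {a : Q → Q} {v d : Q} (h : Ex U D a v d) : d ∈ D := by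
  induction h with
  | one _ h2 => exact h2
  | step _ _ _ ih => exact ih

theorem Ex.uniq {Q : Type u} {U D : Set Q} {a : Q → Q} (hdis : ∀ x ∈ D, x ∈ U → False)
    {v d : Q} (h : Ex U D a v d) : ∀ {e : Q}, Ex U D a v e → d = e := by
  induction h with
  | one h1 h2 =>
    intro e he
    cases he with
    | one _ _ => rfl
    | step _ g2 _ => exact (hdis _ h2 g2).elim
  | step h1 h2 _ ih =>
    intro e he
    cases he with
    | one _ g2 => exact (hdis _ g2 h2).elim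
    | step _ _ g3 => exact ih g3

/-- the orbit of `v` under `be` leaves `U` at `d` -/
abbrev Sys.ExD (T : Sys P) (v d : P) : Prop := Ex T.U T.D T.be v d

theorem Sys.be_ne (T : Sys P) {v : P} (hv : v ∈ T.U) : T.be v ≠ v :=
  fun h => T.n1 v hv h.ge

theorem Sys.exit_le (T : Sys P) {v d : P} (h : T.ExD v d) : T.be v ≤ v →
    d ≤ T.be v ∧ ∃ u ∈ T.U, u ≤ v ∧ T.be u = d := by
  induction h with
  | @one v h1 h2 =>
    intro _
    exact ⟨le_rfl, v, h1, le_rfl, rfl⟩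
  | @step v d h1 h2 _ ih =>
    intro h
    have h3 : T.be (T.be v) ≤ T.be v := T.bm _ h2 _ h1 h
    obtain ⟨i1, u, i2, i3, i4⟩ := ih h3
    exact ⟨i1.trans h3, u, i2, i3.trans h, i4⟩

theorem Sys.exists_exit (T : Sys P) : ∀ v : P, v ∈ T.U → T.be v ≤ v → ∃ d, T.ExD v d := by
  intro v
  induction v using T.wf.induction with
  | _ v ih =>
    intro hv h
    have hlt : T.be v < v := lt_of_le_of_ne h (T.be_ne hv)
    rcases T.cov (T.be v) with hD | hU
    · exact ⟨T.be v, Ex.one hv hD⟩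
    · obtain ⟨d, hd⟩ := ih (T.be v) hlt hU (T.bm _ hU _ hv h)
      exact ⟨d, Ex.step hv hU hd⟩

theorem Sys.cmp (T : Sys P) {v d : P} (h : T.ExD v d) : ∀ {w e : P}, T.ExD w e → w ≤ v →
    T.be v ≤ w → d ≤ e ∨ e ≤ d := by
  induction h with
  | @one v h1 h2 =>
    intro w e hw h3 h4
    right
    have h5 : T.be w ≤ T.be v := T.bm _ hw.memU _ h1 h3
    exact (T.exit_le hw (h5.trans h4)).1.trans h5
  | @step v d h1 h2 hvd ih =>
    intro w e hw h3 h4
    have hwU : w ∈ T.U := hw.memU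
    have h5 : T.be w ≤ T.be v := T.bm _ hwU _ h1 h3
    have h6 : T.be (T.be v) ≤ T.be w := T.bm _ h2 _ hwU h4
    cases hw with
    | one g1 g2 =>
      left
      exact (T.exit_le hvd (h6.trans h5)).1.trans h6
    | step g1 g2 g3 => exact ih g3 h5 h6

theorem Sys.exists_X (T : Sys P) (b : P) (hb : b ∈ T.D) (h : b ≤ T.cc b) :
    ∃ Y : P, T.dual.ExD b Y := T.dual.exists_exit b hb h

theorem Sys.cmpX (T : Sys P) {b Y r Y' : P} (h : T.dual.ExD b Y) (h' : T.dual.ExD r Y')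
    (h1 : b ≤ r) (h2 : r ≤ T.cc b) : Y ≤ Y' ∨ Y' ≤ Y := by
  rcases T.dual.cmp h h' h1 h2 with g | g
  · exact Or.inr g
  · exact Or.inl g

/-- exits of ascents -/
theorem Sys.exX (T : Sys P) {a b r Y : P} (ha : a ∈ T.D) (hb : b ∈ T.D) (hr : r ∈ T.D)
    (hab : a < b) (hbr : b < r) (hrc : r ≤ T.cc b) (hrY : r < Y) (has : a ≤ T.s)
    (hsY : T.s ≤ Y) (hX : T.dual.ExD b Y) : T.dual.ExD r Y := by
  have hYU : Y ∈ T.U := hX.memD
  have h1 : T.cc b ≤ T.cc r := T.cm _ hb _ hr hbr.le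
  have h2 : r ≤ T.cc r := hrc.trans h1
  obtain ⟨Y', hY'⟩ := T.exists_X r hr h2
  have hY'U : Y' ∈ T.U := hY'.memD
  have h3 : T.cc r ≤ Y' := (T.dual.exit_le hY' h2).1
  have h4 : r < Y' := lt_of_lt_of_le (lt_of_le_of_ne h2 (fun h => T.n2 r hr h.ge)) h3
  have hsY' : T.s ≤ Y' := (T.cs r hr).trans h3
  have hc : Y ≤ Y' ∨ Y' ≤ Y := T.cmpX hX hY' hbr.le hrc
  have he : Y' = Y := by
    rcases hc with hc | hc
    · rcases eq_or_lt_of_le hc with hc | hc
      · exact hc.symm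
      · exact (T.nc1 a ha b hb r hr Y hYU Y' hY'U hab hbr hrY hc has hsY').elim
    · rcases eq_or_lt_of_le hc with hc | hc
      · exact hc
      · exact (T.nc1 a ha b hb r hr Y' hY'U Y hYU hab hbr h4 hc has hsY).elim
  subst he
  exact hY'

theorem Sys.ascent (T : Sys P) {a b Y : P} (ha : a ∈ T.D) (hb : b ∈ T.D) (hab : a < b)
    (has : a ≤ T.s) (hY : Y ∈ T.U) (hsY : T.s ≤ Y) :
    ∀ r : P, r ∈ T.D → b < r → r < Y → r ≤ T.cc r → T.dual.ExD r Y → r ≤ T.bb r Y → False := by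
  intro r
  induction r using T.wg.induction with
  | _ r ih =>
    intro hr hbr hrY hrc hX hrb
    have h1 : T.bb r Y ≤ T.cc r := T.b4 r hr Y hY hrY
    have h2 : T.cc r ≤ Y := (T.dual.exit_le hX hrc).1
    have h3 : T.bb r Y < Y := lt_of_le_of_ne (h1.trans h2) (fun h => T.n4 r hr Y hY hrY h.ge)
    have h4 : r < T.bb r Y := lt_of_le_of_ne hrb (fun h => T.n3 r hr Y hY hrY h.ge)
    rcases T.cov (T.bb r Y) with hD | hU
    · have h5 : T.cc r ≤ T.cc (T.bb r Y) := T.cm _ hr _ hD hrb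
      have h6 : T.bb r Y ≤ T.cc (T.bb r Y) := h1.trans h5
      have hX' : T.dual.ExD (T.bb r Y) Y :=
        T.exX ha hr hD (hab.trans hbr) h4 h1 h3 has hsY hX
      exact ih _ h4 hD (hbr.trans h4) h3 h6 hX' (T.b5 r hr _ hD Y hY Y hY hrY h3 hrb le_rfl)
    · exact T.nc1 a ha b hb r hr _ hU Y hY hab hbr h4 h3 has hsY

/-- the key step -/
theorem Sys.key (T : Sys P) {a b v Y : P} (ha : a ∈ T.D) (hb : b ∈ T.D) (hv : v ∈ T.U)
    (hab : a < b) (hbv : b < v) (hvY : v < Y) (has : a ≤ T.s) (hsY : T.s ≤ Y)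
    (hX : T.dual.ExD b Y) (hbc : b ≤ T.cc b) (h1 : v ≤ T.bb b Y) (h2 : b ≤ T.bb b v) : False := by
  have hY : Y ∈ T.U := hX.memD
  have hbY : b < Y := hbv.trans hvY
  have h3 : T.bb b Y ≤ T.cc b := T.b4 b hb Y hY hbY
  have h4 : T.cc b ≤ Y := (T.dual.exit_le hX hbc).1
  have h5 : T.bb b Y < Y := lt_of_le_of_ne (h3.trans h4) (fun h => T.n4 b hb Y hY hbY h.ge)
  rcases T.cov (T.bb b Y) with hD | hU
  · have h6 : v < T.bb b Y := lt_of_le_of_ne h1 (fun h => T.dis _ hD (h ▸ hv))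
    have h7 : b < T.bb b Y := hbv.trans h6
    have h8 : T.cc b ≤ T.cc (T.bb b Y) := T.cm _ hb _ hD h7.le
    exact T.ascent ha hb hab has hY hsY _ hD h7 h5 (h3.trans h8)
      (T.exX ha hb hD hab h7 h3 h5 has hsY hX)
      (T.b5 b hb _ hD Y hY Y hY hbY h5 h7.le le_rfl)
  · rcases eq_or_lt_of_le h1 with h6 | h6
    · have h7 : T.bb b v ≤ v :=
        (T.b5 b hb b hb v hv Y hY hbv hbY le_rfl hvY.le).trans h6.ge
      have h8 : T.bb b v < v := lt_of_le_of_ne h7 (fun h => T.n4 b hb v hv hbv h.ge)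
      have h9 : b < T.bb b v := lt_of_le_of_ne h2 (fun h => T.n3 b hb v hv hbv h.ge)
      rcases T.cov (T.bb b v) with h10 | h10
      · exact T.nc1 a ha b hb _ h10 v hv Y hY hab h9 h8 hvY has hsY
      · exact T.nc2 a ha b hb _ h10 v hv Y hY hab h9 h8 hvY has hsY
    · exact T.nc2 a ha b hb v hv _ hU Y hY hab hbv h6 h5 has hsY

/-- the next point of a descent below `v < Y` is a lower point -/
theorem Sys.mid (T : Sys P) {v Y e : P} (hvY : v < Y) (hY : Y ∈ T.U) (hsY : T.s ≤ Y)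
    (hE : T.ExD v e) (hev : e < v) (hes : e ≤ T.s) (hbv : T.be v ≤ v) (h1 : T.bb e v ≤ v) :
    T.bb e v ∈ T.D := by
  rcases T.cov (T.bb e v) with hD | hU
  · exact hD
  · exfalso
    have he : e ∈ T.D := hE.memD
    have hv : v ∈ T.U := hE.memU
    have h2 : T.bb e v < v := lt_of_le_of_ne h1 (fun h => T.n4 e he v hv hev h.ge)
    have h3 : T.be v ≤ T.bb e v := T.b1 e he v hv hev
    have h4 : e < T.bb e v :=
      lt_of_le_of_ne ((T.exit_le hE hbv).1.trans h3) (fun h => T.n3 e he v hv hev h.ge)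
    have h5 : T.be (T.bb e v) ≤ T.bb e v := (T.bm _ hU _ hv h1).trans h3
    have hE' : T.ExD (T.bb e v) e :=
      T.dual.exX (a := Y) (b := v) (r := T.bb e v) (Y := e) hY hv hU hvY h2 h3 h4 hsY hes hE
    exact T.dual.ascent (a := Y) (b := v) (Y := e) hY hv hvY hsY he hes (T.bb e v) hU h2 h4 h5 hE'
      (T.b5 e he e he _ hU v hv h4 hev le_rfl h1)

theorem Sys.x1 (T : Sys P) {d Y v b : P} (hX : T.dual.ExD d Y) (hds : d ≤ T.s) (hv : v ∈ T.U)
    (hvY : v < Y) (hvc : v ≤ T.cc d) (hb : b ∈ T.D) (hdb : d < b) (hbv : b < v) :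
    T.dual.ExD b Y ∧ b ≤ T.cc b := by
  have hd : d ∈ T.D := hX.memU
  have hY : Y ∈ T.U := hX.memD
  have hdc : d ≤ T.cc d := hds.trans (T.cs d hd)
  have h1 : T.cc d ≤ T.cc b := T.cm _ hd _ hb hdb.le
  have h2 : b ≤ T.cc d := hbv.le.trans hvc
  have h3 : b ≤ T.cc b := h2.trans h1
  obtain ⟨Y', hY'⟩ := T.exists_X b hb h3
  have hY'U : Y' ∈ T.U := hY'.memD
  have h4 : T.cc b ≤ Y' := (T.dual.exit_le hY' h3).1
  have h5 : v ≤ Y' := hvc.trans (h1.trans h4)
  have hsY : T.s ≤ Y := (T.cs d hd).trans (T.dual.exit_le hX hdc).1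
  have hsY' : T.s ≤ Y' := (T.cs b hb).trans h4
  have h6 : v < Y' := by
    refine lt_of_le_of_ne h5 ?_
    intro h
    have h7 : T.cc d = v := le_antisymm ((h1.trans h4).trans h.ge) hvc
    have h8 : T.dual.ExD d (T.cc d) := Ex.one hd (show T.cc d ∈ T.U from h7 ▸ hv)
    have h9 : T.cc d = Y := Ex.uniq T.dual.dis h8 hX
    exact hvY.ne (h7.symm.trans h9)
  refine ⟨?_, h3⟩
  have hc : Y ≤ Y' ∨ Y' ≤ Y := T.cmpX hX hY' hdb.le h2
  have he : Y' = Y := by
    rcases hc with hc | hc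
    · rcases eq_or_lt_of_le hc with hc | hc
      · exact hc.symm
      · exact (T.nc2 d hd b hb v hv Y hY Y' hY'U hdb hbv hvY hc hds hsY').elim
    · rcases eq_or_lt_of_le hc with hc | hc
      · exact hc
      · exact (T.nc2 d hd b hb v hv Y' hY'U Y hY hdb hbv h6 hc hds hsY).elim
  subst he
  exact hY'

/-- core pairs -/
def Sys.Core (T : Sys P) (d Y : P) : Prop :=
  T.ExD Y d ∧ T.dual.ExD d Y ∧ d < Y ∧ d ≤ T.s ∧ T.s ≤ Y

theorem Sys.m12 (T : Sys P) {d Y : P} (hc : T.Core d Y) (hU : T.bb d Y ∈ T.U) :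
    ∃ e, T.Core e (T.bb d Y) ∧ T.bb e (T.bb d Y) ∈ T.D ∧ T.bb e (T.bb d Y) ≠ d ∧
      (T.s = T.bb d Y ∨ T.s = d) := by
  obtain ⟨hE, hX, hdY, hds, hsY⟩ := hc
  have hd : d ∈ T.D := hE.memD
  have hY : Y ∈ T.U := hE.memU
  have hdc : d ≤ T.cc d := hds.trans (T.cs d hd)
  have hbY : T.be Y ≤ Y := (T.bs Y hY).trans hsY
  have hdb : d ≤ T.be Y := (T.exit_le hE hbY).1
  have hcY : T.cc d ≤ Y := (T.dual.exit_le hX hdc).1
  obtain ⟨v, hv⟩ : ∃ v, v = T.bb d Y := ⟨_, rfl⟩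
  rw [← hv] at hU ⊢
  have h1 : T.be Y ≤ v := hv ▸ T.b1 d hd Y hY hdY
  have h2 : v ≤ T.cc d := hv ▸ T.b4 d hd Y hY hdY
  have hvn : v ≠ Y := fun h => T.n4 d hd Y hY hdY (h.symm.trans hv).le
  have h3 : v < Y := lt_of_le_of_ne (h2.trans hcY) hvn
  have hvn' : d ≠ v := fun h => T.n3 d hd Y hY hdY (hv.symm.trans h.symm).le
  have h4 : d < v := lt_of_le_of_ne (hdb.trans h1) hvn'
  have h5 : T.be v ≤ T.be Y := T.bm _ hU _ hY h3.le
  have h6 : T.be v ≤ v := h5.trans h1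
  obtain ⟨e, he⟩ := T.exists_exit v hU h6
  have heD : e ∈ T.D := he.memD
  have h7 : e ≤ T.be v := (T.exit_le he h6).1
  have h8 : e < v := lt_of_le_of_lt h7 (lt_of_le_of_ne h6 (T.be_ne hU))
  have hes : e ≤ T.s := h7.trans (T.bs v hU)
  have hcmp : d ≤ e ∨ e ≤ d := T.cmp hE he h3.le h1
  have hed : e < d := by
    by_contra hned
    have hde : d ≤ e := by
      rcases hcmp with h | h
      · exact h
      · rcases eq_or_lt_of_le h with h | h
        · exact h.ge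
        · exact (hned h).elim
    rcases eq_or_lt_of_le hde with h | h
    · subst h
      have h9 : T.bb d v ≤ v := (T.b5 d hd d hd v hU Y hY h4 hdY le_rfl h3.le).trans hv.ge
      have h10 : T.bb d v ∈ T.D := T.mid h3 hY hsY he h4 hds h6 h9
      have h11 : d < T.bb d v :=
        lt_of_le_of_ne (h7.trans (T.b1 d hd v hU h4)) (fun h => T.n3 d hd v hU h4 h.ge)
      have h12 : T.bb d v < v := lt_of_le_of_ne h9 (fun h => T.n4 d hd v hU h4 h.ge)
      obtain ⟨h13, h14⟩ := T.x1 hX hds hU h3 h2 h10 h11 h12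
      exact T.key hd h10 hU h11 h12 h3 hds hsY h13 h14
        (hv.le.trans (T.b5 d hd _ h10 Y hY Y hY hdY (h12.trans h3) h11.le le_rfl))
        (T.b5 d hd _ h10 v hU v hU h4 h12 h11.le le_rfl)
    · obtain ⟨h13, h14⟩ := T.x1 hX hds hU h3 h2 heD h h8
      exact T.key hd heD hU h h8 h3 hds hsY h13 h14
        (hv.le.trans (T.b5 d hd e heD Y hY Y hY hdY (h8.trans h3) h.le le_rfl))
        (h7.trans (T.b1 e heD v hU h8))
  have k1 : T.bb e v ≤ v := (T.b5 e heD d hd v hU Y hY h8 hdY hed.le h3.le).trans hv.ge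
  have k2 : T.bb e v ∈ T.D := T.mid h3 hY hsY he h8 hes h6 k1
  have k3 : e < T.bb e v :=
    lt_of_le_of_ne (h7.trans (T.b1 e heD v hU h8)) (fun h => T.n3 e heD v hU h8 h.ge)
  have k4 : T.bb e v < v := lt_of_le_of_ne k1 (fun h => T.n4 e heD v hU h8 h.ge)
  have k5 : T.bb e v ≠ d := by
    intro h
    have t1 : d ≤ T.bb d v := h.ge.trans (T.b5 e heD d hd v hU v hU h8 h4 hed.le le_rfl)
    have t2 : T.bb d v ≤ v := (T.b5 d hd d hd v hU Y hY h4 hdY le_rfl h3.le).trans hv.ge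
    have t3 : d < T.bb d v := lt_of_le_of_ne t1 (fun h => T.n3 d hd v hU h4 h.ge)
    have t4 : T.bb d v < v := lt_of_le_of_ne t2 (fun h => T.n4 d hd v hU h4 h.ge)
    rcases T.cov (T.bb d v) with hh | hh
    · exact T.nc1 e heD d hd _ hh v hU Y hY hed t3 t4 h3 hes hsY
    · exact T.nc2 e heD d hd _ hh v hU Y hY hed t3 t4 h3 hes hsY
  have k6 : ¬ T.bb e v ≤ d := by
    intro h
    rcases eq_or_lt_of_le h with h | h
    · exact k5 h
    · exact T.nc1 e heD _ k2 d hd v hU Y hY k3 h h4 h3 hes hsY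
  have heY : e < Y := hed.trans hdY
  have k7 : d ≤ T.bb e Y := hdb.trans (T.b1 e heD Y hY heY)
  have k8 : T.bb e Y ≤ v := (T.b5 e heD d hd Y hY Y hY heY hdY hed.le le_rfl).trans hv.ge
  have k9 : T.bb e Y = v := by
    rcases T.cov (T.bb e Y) with hh | hh
    · exfalso
      rcases eq_or_lt_of_le k7 with g | g
      · exact k6 ((T.b5 e heD e heD v hU Y hY h8 heY le_rfl h3.le).trans g.ge)
      · have g2 : T.bb e Y < v := lt_of_le_of_ne k8 (fun h => T.dis _ hh (h ▸ hU))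
        exact T.nc1 e heD d hd _ hh v hU Y hY hed g g2 h3 hes hsY
    · rcases eq_or_lt_of_le k8 with g | g
      · exact g
      · have g2 : d < T.bb e Y := lt_of_le_of_ne k7 (fun h => T.dis _ hd (h ▸ hh))
        exact (T.nc2 e heD d hd _ hh v hU Y hY hed g2 g h3 hes hsY).elim
  have k10 : v ≤ T.cc e := k9.ge.trans (T.b4 e heD Y hY heY)
  have hec : e ≤ T.cc e := hes.trans (T.cs e heD)
  obtain ⟨Z, hZ⟩ := T.exists_X e heD hec
  have hZU : Z ∈ T.U := hZ.memD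
  have k11 : T.cc e ≤ Z := (T.dual.exit_le hZ hec).1
  have k12 : ∀ hZY : Z = Y, False := by
    intro hZY
    subst hZY
    obtain ⟨h13, h14⟩ := T.x1 hZ hes hU h3 k10 k2 k3 k4
    exact T.key heD k2 hU k3 k4 h3 hes hsY h13 h14
      (k9.ge.trans (T.b5 e heD _ k2 Z hY Z hY heY (k4.trans h3) k3.le le_rfl))
      (T.b5 e heD _ k2 v hU v hU h8 k4 k3.le le_rfl)
  have hZv : Z = v := by
    have hcm : Z ≤ Y ∨ Y ≤ Z := T.cmpX hZ hX hed.le (hds.trans (T.cs e heD))
    rcases hcm with g | g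
    · rcases eq_or_lt_of_le g with g | g
      · exact (k12 g).elim
      · rcases eq_or_lt_of_le (k10.trans k11) with g2 | g2
        · exact g2.symm
        · exact (T.nc2 e heD d hd v hU Z hZU Y hY hed h4 g2 g hes hsY).elim
    · rcases eq_or_lt_of_le g with g | g
      · exact (k12 g.symm).elim
      · exact (T.nc2 e heD d hd v hU Y hY Z hZU hed h4 h3 g hes (hsY.trans g.le)).elim
  subst hZv
  have hsv : T.s ≤ Z := (T.cs e heD).trans k11
  refine ⟨e, ⟨he, hZ, h8, hes, hsv⟩, k2, k5, ?_⟩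
  rcases T.cov T.s with hs | hs
  · right
    rcases eq_or_lt_of_le hds with g | g
    · exact g.symm
    · have g2 : T.s < Z := lt_of_le_of_ne hsv (fun h => T.dis _ hs (h ▸ hU))
      exact (T.nc1 e heD d hd _ hs Z hU Y hY hed g g2 h3 hes hsY).elim
  · left
    rcases eq_or_lt_of_le hsv with g | g
    · exact g
    · have g2 : d < T.s := lt_of_le_of_ne hds (fun h => T.dis _ hd (h ▸ hs))
      exact (T.nc2 e heD d hd _ hs Z hU Y hY hed g2 g h3 hes hsY).elim

theorem Sys.final (T : Sys P) {d Y : P} (hc : T.Core d Y)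
    (hO : ∀ e, T.ExD T.s e → T.dual.ExD e Y) (hU : T.bb d Y ∈ T.U) : False := by
  obtain ⟨e, hc', h1, h2, h3⟩ := T.m12 hc hU
  have hd : d ∈ T.D := hc.1.memD
  have hY : Y ∈ T.U := hc.1.memU
  rcases h3 with h3 | h3
  · have h4 : T.ExD T.s e := by
      rw [h3]
      exact hc'.1
    have h5 := hO e h4
    have h6 : Y = T.bb d Y := Ex.uniq T.dual.dis h5 hc'.2.1
    exact T.n4 d hd Y hY hc.2.2.1 h6.le
  · obtain ⟨y, -, -, -, h6⟩ := T.dual.m12 (d := T.bb d Y) (Y := e)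
      ⟨hc'.2.1, hc'.1, hc'.2.2.1, hc'.2.2.2.2, hc'.2.2.2.1⟩ h1
    have h6' : T.s = T.bb e (T.bb d Y) ∨ T.s = T.bb d Y := h6
    rcases h6' with h6 | h6
    · exact h2 (h6.symm.trans h3)
    · have h7 : d = T.bb d Y := h3.symm.trans h6
      exact T.dis d hd (by rw [h7]; exact hU)

theorem Sys.start (T : Sys P) (hs : T.s ∈ T.U) :
    ∃ d Y, T.Core d Y ∧ ∀ e, T.ExD T.s e → T.dual.ExD e Y := by
  have h1 : T.be T.s ≤ T.s := T.bs _ hs
  obtain ⟨d, hd⟩ := T.exists_exit _ hs h1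
  have hdD : d ∈ T.D := hd.memD
  have hdb : d ≤ T.be T.s := (T.exit_le hd h1).1
  have hds : d < T.s := lt_of_le_of_lt hdb (lt_of_le_of_ne h1 (T.be_ne hs))
  have h2 : T.s ≤ T.cc d := T.cs d hdD
  have h3 : d ≤ T.cc d := hds.le.trans h2
  obtain ⟨Y, hY⟩ := T.exists_X d hdD h3
  have hYU : Y ∈ T.U := hY.memD
  have hcY : T.cc d ≤ Y := (T.dual.exit_le hY h3).1
  have h4 : T.s ≤ Y := h2.trans hcY
  have hO : ∀ e, T.ExD T.s e → T.dual.ExD e Y := by
    intro e he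
    have h : d = e := Ex.uniq T.dis hd he
    rw [← h]
    exact hY
  rcases eq_or_lt_of_le h4 with g | g
  · refine ⟨d, Y, ⟨?_, hY, lt_of_lt_of_le hds h4, hds.le, h4⟩, hO⟩
    rw [← g]
    exact hd
  · have h5 : T.be Y ≤ T.s := T.bs Y hYU
    have h6 : T.be Y ≤ Y := h5.trans h4
    obtain ⟨e, he⟩ := T.exists_exit Y hYU h6
    have heD : e ∈ T.D := he.memD
    have heb : e ≤ T.be Y := (T.exit_le he h6).1
    have hes : e ≤ T.s := heb.trans h5
    have hes' : e < T.s := lt_of_le_of_ne hes (fun h => T.dis e heD (h ▸ hs))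
    have hc : e ≤ d ∨ d ≤ e := T.cmp he hd h4 h5
    by_cases hde : d = e
    · subst hde
      exact ⟨d, Y, ⟨he, hY, hds.trans g, hds.le, h4⟩, hO⟩
    · rcases hc with hc | hc
      · exfalso
        have hlt : e < d := lt_of_le_of_ne hc (Ne.symm hde)
        have k1 : T.be T.s ≤ T.be Y := T.bm _ hs _ hYU h4
        have k2 : d ≤ T.be Y := hdb.trans k1
        rcases T.cov (T.be Y) with hh | hh
        · have h7 : e = T.be Y := Ex.uniq T.dis he (Ex.one hYU hh)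
          exact absurd (k2.trans h7.ge) (not_le_of_gt hlt)
        · have k3 : d < T.be Y := lt_of_le_of_ne k2 (fun h => T.dis d hdD (h ▸ hh))
          rcases eq_or_lt_of_le h5 with k4 | k4
          · have h8 : T.ExD (T.be Y) d := by
              rw [k4]
              exact hd
            have h9 : e = d := Ex.uniq T.dis he (Ex.step hYU hh h8)
            exact hde h9.symm
          · exact T.nc2 e heD d hdD _ hh _ hs Y hYU hlt k3 k4 g hes h4
      · have hlt : d < e := lt_of_le_of_ne hc hde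
        have k1 : T.cc d ≤ T.cc e := T.cm _ hdD _ heD hc
        have k2 : e ≤ T.cc e := hes.trans (T.cs e heD)
        obtain ⟨Z, hZ⟩ := T.exists_X e heD k2
        have hZU : Z ∈ T.U := hZ.memD
        have k3 : T.cc e ≤ Z := (T.dual.exit_le hZ k2).1
        have k4 : T.s ≤ Z := (T.cs e heD).trans k3
        have k5 : T.s < Z := by
          refine lt_of_le_of_ne k4 ?_
          intro h
          have h7 : T.cc d = T.s := le_antisymm ((k1.trans k3).trans h.ge) h2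
          have h8 : T.dual.ExD d (T.cc d) := Ex.one hdD (show T.cc d ∈ T.U from h7 ▸ hs)
          have h9 : T.cc d = Y := Ex.uniq T.dual.dis h8 hY
          exact g.ne (h7.symm.trans h9)
        have hcm : Y ≤ Z ∨ Z ≤ Y := T.cmpX hY hZ hc (hes.trans h2)
        have hZY : Z = Y := by
          rcases hcm with h | h
          · rcases eq_or_lt_of_le h with h | h
            · exact h.symm
            · exact (T.nc2 d hdD e heD _ hs Y hYU Z hZU hlt hes' g h hds.le k4).elim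
          · rcases eq_or_lt_of_le h with h | h
            · exact h
            · exact (T.nc2 d hdD e heD _ hs Z hZU Y hYU hlt hes' k5 h hds.le h4).elim
        subst hZY
        exact ⟨e, Z, ⟨he, hZ, hes'.trans g, hes, h4⟩, hO⟩

theorem Sys.upper (T : Sys P) (hs : T.s ∈ T.U) : False := by
  obtain ⟨d, Y, hc, hO⟩ := T.start hs
  rcases T.cov (T.bb d Y) with h | h
  · exact T.dual.final (d := Y) (Y := d)
      ⟨hc.2.1, hc.1, hc.2.2.1, hc.2.2.2.2, hc.2.2.2.1⟩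
      (fun e he => (T.dis _ he.memU hs).elim) h
  · exact T.final hc hO h

/-- there is no such system -/
theorem Sys.false (T : Sys P) : False := by
  rcases T.cov T.s with h | h
  · exact T.dual.upper h
  · exact T.upper h

end Pool.Agent.Helper83.DV
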