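import Pool.Agent.Helper83.DV.Core
import Pool.Agent.Helper73.DU.NoInf

/-! Project DV (MP_3976d4_co): the system of a map without fixed point lives on the set of its
values; the theorem for maps, its order dual and the case of a special element. -/

set_option autoImplicit false

universe u

namespace Pool.Agent.Helper83.DV

open Pool.Agent.Helper73.DU

theorem mainV (P : Type u) [PartialOrder P]
    (hfin : ∀ C : Set P, IsChain (· ≤ ·) C → C.Finite)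
    (s : P) (f : P → P) (hf : Monotone f) (A : Set P) (b : P → P)
    (hj : ∀ x, f x ∈ A → ∃ z : P, IsLUB ({s, f x} : Set P) z)
    (hbs : ∀ w, f w ∉ A → b (f w) ≤ s ∧ b (f w) ≤ f w)
    (hbm : ∀ v w, f v ∉ A → f w ∉ A → f v ≤ f w → b (f v) ≤ b (f w))
    (hi : ∀ x w, f x ∈ A → f w ∉ A → f x < f w → b (f w) < s →
      ∃ z : P, IsLUB ({b (f w), f x} : Set P) z)
    (hc1 : ∀ x x' x'' w w' : P, f x ∈ A → f x' ∈ A → f x'' ∈ A → f w ∉ A → f w' ∉ A →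
      f x < f x' → f x' < f x'' → f x'' < f w → f w < f w' → f x ≤ f s → ¬ f s ≤ f w')
    (hc2 : ∀ x x' w w' w'' : P, f x ∈ A → f x' ∈ A → f w ∉ A → f w' ∉ A → f w'' ∉ A →
      f x < f x' → f x' < f w → f w < f w' → f w' < f w'' → f x ≤ f s → ¬ f s ≤ f w'') :
    ∃ x, f x = x := by
  classical
  by_contra hno
  have hlt := wfF_lt hfin
  have hgt := wfF_gt hfin
  have nle := no_le f hf hgt hno
  have nge := no_ge f hf hlt hno
  have hcl : ∀ a ∈ Set.range f, a ∈ A → IsLUB ({s, a} : Set P) (J s a) := by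
    rintro _ ⟨x, rfl⟩ hx
    exact J_spec (hj x hx)
  have hbs1 : ∀ a ∈ Set.range f, a ∉ A → b a ≤ s := by
    rintro _ ⟨x, rfl⟩ hx
    exact (hbs x hx).1
  have hbs2 : ∀ a ∈ Set.range f, a ∉ A → b a ≤ a := by
    rintro _ ⟨x, rfl⟩ hx
    exact (hbs x hx).2
  have hbm' : ∀ v ∈ Set.range f, ∀ w ∈ Set.range f, v ∉ A → w ∉ A → v ≤ w → b v ≤ b w := by
    rintro _ ⟨v, rfl⟩ _ ⟨w, rfl⟩ h1 h2 h3
    exact hbm v w h1 h2 h3
  have hbl : ∀ x ∈ Set.range f, ∀ w ∈ Set.range f, x ∈ A → w ∉ A → x < w →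
      IsLUB ({b w, x} : Set P) (J (b w) x) := by
    intro x hxr w hwr hx hw hxw
    rcases eq_or_lt_of_le (hbs1 w hwr hw) with he | hl
    · rw [he]
      exact hcl x hxr hx
    · obtain ⟨x, rfl⟩ := hxr
      obtain ⟨w, rfl⟩ := hwr
      exact J_spec (hi x w hx hw hxw hl)
  refine Sys.false (P := Set.range f)
    { s := ⟨f s, s, rfl⟩, D := {q | q.1 ∈ A}, U := {q | q.1 ∉ A},
      be := fun q => ⟨f (b q.1), _, rfl⟩, cc := fun q => ⟨f (J s q.1), _, rfl⟩,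
      bb := fun q r => ⟨f (J (b r.1) q.1), _, rfl⟩,
      wf := InvImage.wf (fun q : Set.range f => q.1) hlt,
      wg := InvImage.wf (fun q : Set.range f => q.1) hgt,
      cov := fun y => Classical.em (y.1 ∈ A), dis := fun x hx hx' => hx' hx,
      bs := ?_, cs := ?_, bm := ?_, cm := ?_, b1 := ?_, b4 := ?_, b5 := ?_, n1 := ?_, n2 := ?_,
      n3 := ?_, n4 := ?_, nc1 := ?_, nc2 := ?_ }
  · intro w hw
    exact hf (hbs1 w.1 w.2 hw)
  · intro x hx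
    exact hf (lub_left (hcl x.1 x.2 hx))
  · intro v hv w hw h
    exact hf (hbm' v.1 v.2 w.1 w.2 hv hw h)
  · intro x hx y hy h
    exact hf (lub_le (hcl x.1 x.2 hx) (lub_left (hcl y.1 y.2 hy))
      (le_trans h (lub_right (hcl y.1 y.2 hy))))
  · intro x hx w hw h
    exact hf (lub_left (hbl x.1 x.2 w.1 w.2 hx hw h))
  · intro x hx w hw h
    exact hf (lub_le (hbl x.1 x.2 w.1 w.2 hx hw h)
      ((hbs1 w.1 w.2 hw).trans (lub_left (hcl x.1 x.2 hx))) (lub_right (hcl x.1 x.2 hx)))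
  · intro x hx y hy v hv w hw h1 h2 h3 h4
    exact hf (lub_le (hbl x.1 x.2 v.1 v.2 hx hv h1)
      ((hbm' v.1 v.2 w.1 w.2 hv hw h4).trans (lub_left (hbl y.1 y.2 w.1 w.2 hy hw h2)))
      (le_trans h3 (lub_right (hbl y.1 y.2 w.1 w.2 hy hw h2))))
  · intro w hw h
    exact nle (b w.1) ((hbs2 w.1 w.2 hw).trans h)
  · intro x hx h
    exact nge (J s x.1) (le_trans h (lub_right (hcl x.1 x.2 hx)))
  · intro x hx w hw hxw h
    exact nge (J (b w.1) x.1) (le_trans h (lub_right (hbl x.1 x.2 w.1 w.2 hx hw hxw)))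
  · intro x hx w hw hxw h
    exact nle (J (b w.1) x.1) (le_trans
      (lub_le (hbl x.1 x.2 w.1 w.2 hx hw hxw) (hbs2 w.1 w.2 hw) (le_of_lt hxw)) h)
  · rintro ⟨_, x, rfl⟩ hx ⟨_, x', rfl⟩ hx' ⟨_, x'', rfl⟩ hx'' ⟨_, w, rfl⟩ hw ⟨_, w', rfl⟩ hw'
      h1 h2 h3 h4 h5 h6
    exact hc1 x x' x'' w w' hx hx' hx'' hw hw' h1 h2 h3 h4 h5 h6
  · rintro ⟨_, x, rfl⟩ hx ⟨_, x', rfl⟩ hx' ⟨_, w, rfl⟩ hw ⟨_, w', rfl⟩ hw' ⟨_, w'', rfl⟩ hw''
      h1 h2 h3 h4 h5 h6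
    exact hc2 x x' w w' w'' hx hx' hw hw' hw'' h1 h2 h3 h4 h5 h6

theorem mainV_dual (P : Type u) [PartialOrder P]
    (hfin : ∀ C : Set P, IsChain (· ≤ ·) C → C.Finite)
    (s : P) (f : P → P) (hf : Monotone f) (A : Set P) (b : P → P)
    (hj : ∀ x, f x ∈ A → ∃ z : P, IsGLB ({s, f x} : Set P) z)
    (hbs : ∀ w, f w ∉ A → s ≤ b (f w) ∧ f w ≤ b (f w))
    (hbm : ∀ v w, f v ∉ A → f w ∉ A → f v ≤ f w → b (f v) ≤ b (f w))
    (hi : ∀ x w, f x ∈ A → f w ∉ A → f w < f x → s < b (f w) →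
      ∃ z : P, IsGLB ({b (f w), f x} : Set P) z)
    (hc1 : ∀ x x' x'' w w' : P, f x ∈ A → f x' ∈ A → f x'' ∈ A → f w ∉ A → f w' ∉ A →
      f x' < f x → f x'' < f x' → f w < f x'' → f w' < f w → f s ≤ f x → ¬ f w' ≤ f s)
    (hc2 : ∀ x x' w w' w'' : P, f x ∈ A → f x' ∈ A → f w ∉ A → f w' ∉ A → f w'' ∉ A →
      f x' < f x → f w < f x' → f w' < f w → f w'' < f w' → f s ≤ f x → ¬ f w'' ≤ f s) :
    ∃ x, f x = x :=
  mainV Pᵒᵈ (chainsF_dual hfin) s f (fun _ _ h => hf h) A b hj hbs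
    (fun v w hv hw h => hbm w v hw hv h) hi hc1 hc2

/-- the case of a special element -/
theorem specialV (P : Type u) [PartialOrder P]
    (hfin : ∀ C : Set P, IsChain (· ≤ ·) C → C.Finite) (s : P)
    (h1 : ∀ x : P, (∃ z : P, IsLUB ({s, x} : Set P) z) ∨ (∃ z : P, IsGLB ({s, x} : Set P) z))
    (h2 : ∀ x y : P, x < y → (¬ ∃ z : P, IsGLB ({s, x} : Set P) z) →
      ∀ m : P, IsGLB ({s, y} : Set P) m → ∃ z : P, IsLUB ({m, x} : Set P) z)
    (f : P → P) (hf : Monotone f)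
    (hc1 : ∀ x x' x'' w y : P, f x < f x' → f x' < f x'' → f x'' < f w → f w < f y →
      f x ≤ f s → f s ≤ f y →
      (¬ ∃ z : P, IsGLB ({s, f x} : Set P) z) → (¬ ∃ z : P, IsGLB ({s, f x'} : Set P) z) →
      (¬ ∃ z : P, IsGLB ({s, f x''} : Set P) z) →
      (∃ z : P, IsGLB ({s, f w} : Set P) z) → ∃ z : P, IsLUB ({s, f y} : Set P) z)
    (hc2 : ∀ x x' w w' y : P, f x < f x' → f x' < f w → f w < f w' → f w' < f y →
      f x ≤ f s → f s ≤ f y →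
      (¬ ∃ z : P, IsGLB ({s, f x} : Set P) z) → (¬ ∃ z : P, IsGLB ({s, f x'} : Set P) z) →
      (∃ z : P, IsGLB ({s, f w} : Set P) z) → (∃ z : P, IsGLB ({s, f w'} : Set P) z) →
      ∃ z : P, IsLUB ({s, f y} : Set P) z) :
    ∃ x, f x = x := by
  classical
  let A : Set P := {a | (¬ ∃ z : P, IsGLB ({s, a} : Set P) z) ∨
    ∀ y : P, a ≤ f y → ∃ z : P, IsLUB ({s, f y} : Set P) z}
  let M : P → P := fun y => if h : ∃ z : P, IsGLB ({s, y} : Set P) z then h.choose else s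
  have hM : ∀ y, (∃ z : P, IsGLB ({s, y} : Set P) z) → IsGLB ({s, y} : Set P) (M y) := by
    intro y hy
    simp only [M, dif_pos hy]
    exact hy.choose_spec
  have hA0 : ∀ w, w ∉ A → (∃ z : P, IsGLB ({s, w} : Set P) z) ∧
      ∃ y, w ≤ f y ∧ ¬ ∃ z : P, IsLUB ({s, f y} : Set P) z := by
    intro w hw
    by_contra h
    apply hw
    by_cases h3 : ∃ z : P, IsGLB ({s, w} : Set P) z
    · right
      intro y hy
      by_contra h4
      exact h ⟨h3, y, hy, h4⟩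
    · exact Or.inl h3
  have hA : ∀ w, w ∉ A → IsGLB ({s, w} : Set P) (M w) := fun w hw => hM _ (hA0 w hw).1
  have hlow : ∀ x w, x ∈ A → w ∉ A → x < w → ¬ ∃ z : P, IsGLB ({s, x} : Set P) z := by
    intro x w hx hw hxw
    rcases hx with hx | hx
    · exact hx
    · exact (hw (Or.inr fun y hy => hx y (hxw.le.trans hy))).elim
  refine mainV P hfin s f hf A M ?_ ?_ ?_ ?_ ?_ ?_
  · intro x hx
    rcases hx with hx | hx
    · rcases h1 (f x) with h | h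
      · exact h
      · exact absurd h hx
    · exact hx x le_rfl
  · intro w hw
    exact ⟨(hA _ hw).1 (by simp), (hA _ hw).1 (by simp)⟩
  · intro v w hv hw h
    refine (hA _ hw).2 ?_
    rintro z (rfl | rfl)
    · exact (hA _ hv).1 (by simp)
    · exact ((hA _ hv).1 (by simp) : M (f v) ≤ f v).trans h
  · intro x w hx hw hxw _
    exact h2 (f x) (f w) hxw (hlow _ _ hx hw hxw) _ (hA _ hw)
  · intro x x' x'' w w' hx hx' hx'' hw hw' g1 g2 g3 g4 g5 g6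
    obtain ⟨y, hy, hny⟩ := (hA0 _ hw').2
    exact hny (hc1 x x' x'' w y g1 g2 g3 (g4.trans_le hy) g5 (g6.trans hy)
      (hlow _ _ hx hw (g1.trans (g2.trans g3))) (hlow _ _ hx' hw (g2.trans g3))
      (hlow _ _ hx'' hw g3) (hA0 _ hw).1)
  · intro x x' w w' w'' hx hx' hw hw' hw'' g1 g2 g3 g4 g5 g6
    obtain ⟨y, hy, hny⟩ := (hA0 _ hw'').2
    exact hny (hc2 x x' w w' y g1 g2 g3 (g4.trans_le hy) g5 (g6.trans hy)
      (hlow _ _ hx hw (g1.trans g2)) (hlow _ _ hx' hw g2) (hA0 _ hw).1 (hA0 _ hw').1)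

end Pool.Agent.Helper83.DV
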